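import Mathlib

set_option autoImplicit false

/-! Loop density and spectral radius of unimodular random regular graphs. -/

namespace Pool.Agent.Results.MP_74bc7f_pr.LinearLoopDensity

open MeasureTheory Filter Topology
open scoped ENNReal

noncomputable section

attribute [local instance] Classical.propDecidable

/-! ### Definitions -/

/-- A connected `d`-regular graph on the vertex set `V`, given by its multiplicities. -/
structure IsRegularGraph {V : Type} (d : ℕ) (a : V → V → ℕ) : Prop where
  symm : ∀ x y, a x y = a y x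
  regular : ∀ x, ∑' y, (a x y : ℝ≥0∞) = d
  connected : ∀ x y, Relation.ReflTransGen (fun u v => 0 < a u v) x y

/-- A functional of graphs with vertex set `V` and two marked vertices that is invariant under
isomorphisms. -/
def IsInvariant {V : Type} (f : (V → V → ℕ) → V → V → ℝ≥0∞) : Prop :=
  ∀ (φ : Equiv.Perm V) (a : V → V → ℕ) (x y : V),
    f (fun u v => a (φ u) (φ v)) x y = f a (φ x) (φ y)

/-- The mass transport principle for the random graph `a` on `V` with root `o`. -/
def IsUnimodular {V Ω : Type} [MeasurableSpace Ω] (P : Measure Ω) (a : Ω → V → V → ℕ)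
    (o : Ω → V) : Prop :=
  ∀ f : (V → V → ℕ) → V → V → ℝ≥0∞, (∀ x y, Measurable fun b => f b x y) → IsInvariant f →
    ∫⁻ ω, ∑' x, f (a ω) (o ω) x ∂P = ∫⁻ ω, ∑' x, f (a ω) x (o ω) ∂P

/-- The `n`-step transition probabilities of simple random walk on a `d`-regular graph. -/
def transProb {V : Type} (d : ℕ) (a : V → V → ℕ) : ℕ → V → V → ℝ≥0∞
  | 0, x, y => if x = y then 1 else 0
  | n + 1, x, y => ∑' z, transProb d a n x z * ((a z y : ℝ≥0∞) / d)

/-- The spectral radius. -/
def spectralRadius {V : Type} (d : ℕ) (a : V → V → ℕ) (o : V) : ℝ≥0∞ :=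
  limsup (fun n : ℕ => transProb d a (2 * n) o o ^ (1 / (2 * n : ℝ))) atTop

/-! ### Supersolutions -/

theorem transProb_le {V : Type} (d : ℕ) (a : V → V → ℕ) (lam : ℝ≥0∞) (f : V → ℝ≥0∞)
    (hf : ∀ x, ∑' y, (a x y : ℝ≥0∞) * f y ≤ lam * f x) (n : ℕ) (x : V) :
    ∑' y, transProb d a n x y * f y ≤ (lam / d) ^ n * f x := by
  induction n with
  | zero =>
    rw [pow_zero, one_mul, tsum_eq_single x]
    · simp [transProb]
    · intro y hy
      simp [transProb, hy.symm]
  | succ n ih =>
    calc ∑' y, transProb d a (n + 1) x y * f y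
        = ∑' y, ∑' z, transProb d a n x z * ((a z y : ℝ≥0∞) / d) * f y := by
          refine tsum_congr fun y => ?_
          rw [transProb, ENNReal.tsum_mul_right]
      _ = ∑' z, ∑' y, transProb d a n x z * ((a z y : ℝ≥0∞) / d) * f y := ENNReal.tsum_comm
      _ = ∑' z, transProb d a n x z * ((∑' y, (a z y : ℝ≥0∞) * f y) / d) := by
          refine tsum_congr fun z => ?_
          rw [ENNReal.div_eq_inv_mul, ← ENNReal.tsum_mul_left, ← ENNReal.tsum_mul_left]
          refine tsum_congr fun y => ?_
          rw [ENNReal.div_eq_inv_mul]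
          ring
      _ ≤ ∑' z, transProb d a n x z * (lam / d * f z) := by
          refine ENNReal.tsum_le_tsum fun z => ?_
          refine mul_le_mul_right ?_ _
          calc (∑' y, (a z y : ℝ≥0∞) * f y) / d ≤ (lam * f z) / d :=
                ENNReal.div_le_div_right (hf z) _
            _ = lam / d * f z := by rw [ENNReal.div_eq_inv_mul, ENNReal.div_eq_inv_mul]; ring
      _ = lam / d * ∑' z, transProb d a n x z * f z := by
          rw [← ENNReal.tsum_mul_left]
          refine tsum_congr fun z => ?_
          ring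
      _ ≤ lam / d * ((lam / d) ^ n * f x) := mul_le_mul_right ih _
      _ = (lam / d) ^ (n + 1) * f x := by rw [pow_succ]; ring

theorem spectralRadius_le {V : Type} (d : ℕ) (a : V → V → ℕ) (lam : ℝ≥0∞) (f : V → ℝ≥0∞)
    (hf : ∀ x, ∑' y, (a x y : ℝ≥0∞) * f y ≤ lam * f x) (hpos : ∀ x, f x ≠ 0)
    (htop : ∀ x, f x ≠ ∞) (o : V) : spectralRadius d a o ≤ lam / d := by
  have h1 : ∀ n, transProb d a n o o ≤ (lam / d) ^ n := by
    intro n
    have h2 := (ENNReal.le_tsum (f := fun y => transProb d a n o y * f y) o).trans
      (transProb_le d a lam f hf n o)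
    rwa [ENNReal.mul_le_mul_iff_left (hpos o) (htop o)] at h2
  unfold spectralRadius
  refine limsup_le_of_le (by isBoundedDefault) ?_
  filter_upwards [eventually_ge_atTop 1] with n hn
  have hn' : (0 : ℝ) < n := by exact_mod_cast hn
  calc transProb d a (2 * n) o o ^ (1 / (2 * n : ℝ))
      ≤ ((lam / d) ^ (2 * n)) ^ (1 / (2 * n : ℝ)) :=
        ENNReal.rpow_le_rpow (h1 _) (by positivity)
    _ = lam / d := by
        rw [← ENNReal.rpow_natCast, ← ENNReal.rpow_mul]
        push_cast
        rw [mul_one_div_cancel (by positivity), ENNReal.rpow_one]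

/-! ### The construction -/

section Construction

variable (q k : ℕ)

/-- vertices of a ball: words of length at most `k`; the last letter is the head of the list -/
abbrev Ball : Type := {w : List (Fin q) // w.length ≤ k}

/-- balls: reduced words in the letters of length `k + 1` -/
abbrev Cell : Type :=
  {l : List (List (Fin q)) // (∀ c ∈ l, c.length = k + 1) ∧ l.IsChain (· ≠ ·)}

variable {q k}

/-- right multiplication by a letter -/
def rmul {X : Type} (c : X) : List X → List X
  | [] => [c]
  | x :: l => if x = c then l else c :: x :: l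

/-- left multiplication by a letter -/
def lmul {X : Type} (c : X) : List X → List X
  | [] => [c]
  | [x] => if x = c then [] else [x, c]
  | x :: y :: l => x :: lmul c (y :: l)

theorem lmul_rmul {X : Type} (c c' : X) (l : List X) :
    lmul c (rmul c' l) = rmul c' (lmul c l) := by
  match l with
  | [] =>
    simp only [rmul, lmul]
    by_cases h : c' = c
    · simp [h]
    · rw [if_neg h, if_neg (Ne.symm h)]
  | [x] =>
    by_cases h1 : x = c'
    · by_cases h2 : x = c
      · subst h1; subst h2
        simp [rmul, lmul]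
      · subst h1
        simp [rmul, lmul, h2]
    · by_cases h2 : x = c
      · subst h2
        simp [rmul, lmul, h1]
      · simp [rmul, lmul, h1, h2]
  | x :: y :: l =>
    by_cases h1 : x = c'
    · subst h1
      simp [rmul, lmul]
    · simp [rmul, lmul, h1]

theorem rmul_chain {X : Type} {c : X} {l : List X} (h : l.IsChain (· ≠ ·)) :
    (rmul c l).IsChain (· ≠ ·) := by
  match l with
  | [] => simp [rmul]
  | x :: l =>
    rw [rmul]
    split_ifs with h1
    · exact h.tail
    · exact List.isChain_cons_cons.2 ⟨Ne.symm h1, h⟩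

theorem rmul_rmul {X : Type} {c : X} {l : List X} (h : l.IsChain (· ≠ ·)) :
    rmul c (rmul c l) = l := by
  match l with
  | [] => simp [rmul]
  | [x] =>
    by_cases h1 : x = c
    · subst h1; simp [rmul]
    · simp [rmul, h1]
  | x :: y :: l =>
    by_cases h1 : x = c
    · subst h1
      have h2 : x ≠ y := (List.isChain_cons_cons.1 h).1
      simp [rmul, h2.symm]
    · simp [rmul, h1]

theorem mem_rmul {X : Type} {c x : X} {l : List X} (h : x ∈ rmul c l) : x = c ∨ x ∈ l := by
  match l with
  | [] => simpa [rmul] using h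
  | y :: l =>
    rw [rmul] at h
    split_ifs at h with h1
    · exact Or.inr (List.mem_cons_of_mem _ h)
    · simpa using h

theorem mem_lmul {X : Type} {c x : X} {l : List X} (h : x ∈ lmul c l) : x = c ∨ x ∈ l := by
  induction l with
  | nil => simpa [lmul] using h
  | cons y l ih =>
    cases l with
    | nil =>
      rw [lmul] at h
      split_ifs at h with h1
      · simp at h
      · simp only [List.mem_cons, List.not_mem_nil, or_false] at h ⊢
        tauto
    | cons z l =>
      rw [lmul, List.mem_cons] at h
      rcases h with h | h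
      · simp [h]
      · rcases ih h with h | h
        · exact Or.inl h
        · exact Or.inr (List.mem_cons_of_mem _ h)

theorem lmul_head {X : Type} {c y : X} {l : List X} :
    ∃ l', lmul c (y :: l) = y :: l' ∨ lmul c (y :: l) = [] := by
  cases l with
  | nil =>
    by_cases h : y = c
    · exact ⟨[], Or.inr (by simp [lmul, h])⟩
    · exact ⟨[c], Or.inl (by simp [lmul, h])⟩
  | cons z l => exact ⟨lmul c (z :: l), Or.inl rfl⟩

theorem lmul_chain {X : Type} {c : X} {l : List X} (h : l.IsChain (· ≠ ·)) :
    (lmul c l).IsChain (· ≠ ·) := by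
  induction l with
  | nil => simp [lmul]
  | cons y l ih =>
    cases l with
    | nil =>
      rw [lmul]
      split_ifs with h1
      · exact List.IsChain.nil
      · simpa using h1
    | cons z l =>
      rw [lmul]
      have h1 := ih h.tail
      have h2 : y ≠ z := (List.isChain_cons_cons.1 h).1
      obtain ⟨l', h3 | h3⟩ := lmul_head (c := c) (y := z) (l := l)
      · rw [h3] at h1 ⊢
        exact List.isChain_cons_cons.2 ⟨h2, h1⟩
      · rw [h3]; simp

theorem lmul_lmul {X : Type} {c : X} {l : List X} (h : l.IsChain (· ≠ ·)) :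
    lmul c (lmul c l) = l := by
  induction l with
  | nil => simp [lmul]
  | cons y l ih =>
    cases l with
    | nil =>
      by_cases h1 : y = c
      · subst h1; simp [lmul]
      · simp [lmul, h1]
    | cons z l =>
      have h2 : y ≠ z := (List.isChain_cons_cons.1 h).1
      have h1 := ih h.tail
      rw [lmul]
      obtain ⟨l', h3 | h3⟩ := lmul_head (c := c) (y := z) (l := l)
      · rw [h3] at h1 ⊢
        rw [lmul, h1]
      · rw [h3] at h1 ⊢
        have h4 : [c] = z :: l := by simpa [lmul] using h1
        have h5 : c = z := (List.cons.inj h4).1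
        have h6 : [] = l := (List.cons.inj h4).2
        subst h5; subst h6
        simp [lmul, h2]

/-- right multiplication on cells -/
def R (c : List (Fin q)) (hc : c.length = k + 1) (l : Cell q k) : Cell q k :=
  ⟨rmul c l.1, fun x hx => (mem_rmul hx).elim (fun h => by rw [h]; exact hc) (l.2.1 x),
    rmul_chain l.2.2⟩

/-- left multiplication on cells -/
def L (c : List (Fin q)) (hc : c.length = k + 1) (l : Cell q k) : Cell q k :=
  ⟨lmul c l.1, fun x hx => (mem_lmul hx).elim (fun h => by rw [h]; exact hc) (l.2.1 x),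
    lmul_chain l.2.2⟩

/-- the `q + 1` neighbours of a vertex: the parent (or the vertex itself, for the centre of a
ball) and `q` children, which for the leaves of the ball lie in adjacent balls -/
def nb (x : Cell q k × Ball q k) : Option (Fin q) → Cell q k × Ball q k
  | none => (x.1, ⟨x.2.1.tail, by have := x.2.2; rw [List.length_tail]; omega⟩)
  | some j => if h : x.2.1.length < k then (x.1, ⟨j :: x.2.1, by rw [List.length_cons]; omega⟩)
      else (R (j :: x.2.1) (by have := x.2.2; rw [List.length_cons]; omega) x.1, x.2)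

/-- the label of the reversed edge -/
def lab (x : Cell q k × Ball q k) : Option (Fin q) → Option (Fin q)
  | none => x.2.1.head?
  | some j => if x.2.1.length < k then none else some j

/-- the multiplicities -/
def mult (x y : Cell q k × Ball q k) : ℕ := (Finset.univ.filter fun i => nb x i = y).card

theorem nb_some_lt (x : Cell q k × Ball q k) (j : Fin q) (h : x.2.1.length < k) :
    nb x (some j) = (x.1, ⟨j :: x.2.1, by rw [List.length_cons]; omega⟩) := dif_pos h

theorem nb_some_ge (x : Cell q k × Ball q k) (j : Fin q) (h : ¬ x.2.1.length < k) :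
    nb x (some j) =
      (R (j :: x.2.1) (by have := x.2.2; rw [List.length_cons]; omega) x.1, x.2) := dif_neg h

theorem lab_some_lt (x : Cell q k × Ball q k) (j : Fin q) (h : x.2.1.length < k) :
    lab x (some j) = none := if_pos h

theorem lab_some_ge (x : Cell q k × Ball q k) (j : Fin q) (h : ¬ x.2.1.length < k) :
    lab x (some j) = some j := if_neg h

theorem nb_lab (x : Cell q k × Ball q k) (i : Option (Fin q)) : nb (nb x i) (lab x i) = x := by
  obtain ⟨l, w, hw⟩ := x
  cases i with
  | none =>
    cases w with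
    | nil => rfl
    | cons j w =>
      have h : w.length < k := by simpa using hw
      exact nb_some_lt (l, ⟨w, h.le⟩) j h
  | some j =>
    by_cases h : w.length < k
    · rw [lab_some_lt _ _ h, nb_some_lt _ _ h]
      rfl
    · rw [lab_some_ge (l, ⟨w, hw⟩) j h, nb_some_ge (l, ⟨w, hw⟩) j h]
      refine (nb_some_ge _ j h).trans ?_
      refine Prod.ext (Subtype.ext ?_) rfl
      exact rmul_rmul l.2.2

theorem lab_lab (x : Cell q k × Ball q k) (i : Option (Fin q)) : lab (nb x i) (lab x i) = i := by
  obtain ⟨l, w, hw⟩ := x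
  cases i with
  | none =>
    cases w with
    | nil => rfl
    | cons j w =>
      have h : w.length < k := by simpa using hw
      exact lab_some_lt (l, ⟨w, h.le⟩) j h
  | some j =>
    by_cases h : w.length < k
    · rw [lab_some_lt _ _ h, nb_some_lt _ _ h]
      rfl
    · rw [lab_some_ge (l, ⟨w, hw⟩) j h, nb_some_ge (l, ⟨w, hw⟩) j h]
      exact lab_some_ge _ j h

theorem mult_symm (x y : Cell q k × Ball q k) : mult x y = mult y x := by
  unfold mult
  refine Finset.card_bij' (fun i _ => lab x i) (fun i _ => lab y i) ?_ ?_ ?_ ?_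
  · intro i hi
    rw [Finset.mem_filter] at hi ⊢
    refine ⟨Finset.mem_univ _, ?_⟩
    rw [← hi.2, nb_lab]
  · intro i hi
    rw [Finset.mem_filter] at hi ⊢
    refine ⟨Finset.mem_univ _, ?_⟩
    rw [← hi.2, nb_lab]
  · intro i hi
    rw [Finset.mem_filter] at hi
    rw [← hi.2, lab_lab]
  · intro i hi
    rw [Finset.mem_filter] at hi
    rw [← hi.2, lab_lab]

/-- sums over neighbours -/
theorem tsum_mult (x : Cell q k × Ball q k) (f : Cell q k × Ball q k → ℝ≥0∞) :
    ∑' y, (mult x y : ℝ≥0∞) * f y = ∑ i, f (nb x i) := by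
  have h1 : ∀ y, (mult x y : ℝ≥0∞) * f y = ∑ i, if nb x i = y then f y else 0 := by
    intro y
    rw [mult, Finset.card_filter]
    push_cast
    rw [Finset.sum_mul]
    refine Finset.sum_congr rfl fun i _ => ?_
    split_ifs <;> simp
  rw [tsum_congr h1, Summable.tsum_finsetSum fun _ _ => ENNReal.summable]
  exact Finset.sum_congr rfl fun i _ => tsum_ite_eq' _ _

theorem regular (x : Cell q k × Ball q k) : ∑' y, (mult x y : ℝ≥0∞) = ((q + 1 : ℕ) : ℝ≥0∞) := by
  have h := tsum_mult x fun _ => 1
  simp only [mul_one] at h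
  rw [h, Finset.sum_const, Finset.card_univ, Fintype.card_option, Fintype.card_fin, nsmul_eq_mul,
    mul_one]

theorem adj_nb (x : Cell q k × Ball q k) (i : Option (Fin q)) : 0 < mult x (nb x i) := by
  rw [mult, Finset.card_pos]
  exact ⟨i, Finset.mem_filter.2 ⟨Finset.mem_univ _, rfl⟩⟩

theorem conn_symm {x y : Cell q k × Ball q k}
    (h : Relation.ReflTransGen (fun u v => 0 < mult u v) x y) :
    Relation.ReflTransGen (fun u v => 0 < mult u v) y x := by
  induction h with
  | refl => exact Relation.ReflTransGen.refl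
  | tail _ h ih => exact Relation.ReflTransGen.head (by rwa [mult_symm]) ih

theorem conn_center (l : Cell q k) (w : List (Fin q)) (hw : w.length ≤ k) :
    Relation.ReflTransGen (fun u v : Cell q k × Ball q k => 0 < mult u v) (l, ⟨w, hw⟩)
      (l, ⟨[], Nat.zero_le _⟩) := by
  induction w with
  | nil => exact Relation.ReflTransGen.refl
  | cons j w ih =>
    have h : w.length ≤ k := by rw [List.length_cons] at hw; omega
    exact Relation.ReflTransGen.head (adj_nb (l, ⟨j :: w, hw⟩) none) (ih h)

theorem conn_root (l : List (List (Fin q)))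
    (hl : (∀ c ∈ l, c.length = k + 1) ∧ l.IsChain (· ≠ ·)) :
    Relation.ReflTransGen (fun u v : Cell q k × Ball q k => 0 < mult u v)
      (⟨l, hl⟩, ⟨[], Nat.zero_le _⟩) (⟨[], by simp⟩, ⟨[], Nat.zero_le _⟩) := by
  induction l with
  | nil => exact Relation.ReflTransGen.refl
  | cons c l ih =>
    have hc : c.length = k + 1 := hl.1 c List.mem_cons_self
    cases c with
    | nil => simp at hc
    | cons j w =>
      have hw : w.length = k := by simpa using hc
      have hl' : (∀ c ∈ l, c.length = k + 1) ∧ l.IsChain (· ≠ ·) :=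
        ⟨fun c hc => hl.1 c (List.mem_cons_of_mem _ hc), hl.2.tail⟩
      have h1 := conn_symm (conn_center (⟨(j :: w) :: l, hl⟩ : Cell q k) w hw.le)
      have h2 := adj_nb ((⟨(j :: w) :: l, hl⟩ : Cell q k), (⟨w, hw.le⟩ : Ball q k)) (some j)
      rw [nb_some_ge _ _ (by simp [hw])] at h2
      have h3 : R (j :: w) hc (⟨(j :: w) :: l, hl⟩ : Cell q k) = ⟨l, hl'⟩ := by
        refine Subtype.ext ?_
        simp [R, rmul]
      have h4 : Relation.ReflTransGen (fun u v : Cell q k × Ball q k => 0 < mult u v)
          (⟨(j :: w) :: l, hl⟩, ⟨w, hw.le⟩) (⟨l, hl'⟩, ⟨w, hw.le⟩) := by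
        refine Relation.ReflTransGen.single ?_
        rw [← h3]
        exact h2
      exact (h1.trans h4).trans ((conn_center _ w hw.le).trans (ih hl'))

theorem connected (x y : Cell q k × Ball q k) :
    Relation.ReflTransGen (fun u v => 0 < mult u v) x y := by
  have h : ∀ x : Cell q k × Ball q k, Relation.ReflTransGen (fun u v => 0 < mult u v) x
      (⟨[], by simp⟩, ⟨[], Nat.zero_le _⟩) := by
    rintro ⟨⟨l, hl⟩, ⟨w, hw⟩⟩
    exact (conn_center _ w hw).trans (conn_root l hl)
  exact (h x).trans (conn_symm (h y))

/-- the reversed word -/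
def rev (l : Cell q k) : Cell q k :=
  ⟨l.1.reverse, fun c hc => l.2.1 c (List.mem_reverse.1 hc), by
    rw [List.isChain_reverse]
    exact l.2.2.imp fun a b h => h.symm⟩

theorem rev_rev (l : Cell q k) : rev (rev l) = l := Subtype.ext (List.reverse_reverse _)

theorem R_R (c : List (Fin q)) (hc : c.length = k + 1) (l : Cell q k) : R c hc (R c hc l) = l :=
  Subtype.ext (rmul_rmul l.2.2)

theorem L_L (c : List (Fin q)) (hc : c.length = k + 1) (l : Cell q k) : L c hc (L c hc l) = l :=
  Subtype.ext (lmul_lmul l.2.2)

theorem L_R (c c' : List (Fin q)) (hc : c.length = k + 1) (hc' : c'.length = k + 1)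
    (l : Cell q k) : L c hc (R c' hc' l) = R c' hc' (L c hc l) :=
  Subtype.ext (lmul_rmul _ _ _)

theorem lmul_append {X : Type} (c : X) (l : List X) (h : (l ++ [c]).IsChain (· ≠ ·)) :
    lmul c l = l ++ [c] := by
  induction l with
  | nil => rfl
  | cons y l ih =>
    cases l with
    | nil =>
      have h2 : y ≠ c := (List.isChain_cons_cons.1 h).1
      simp [lmul, h2]
    | cons z l =>
      rw [lmul, ih h.tail]
      rfl

/-- the translation that moves `g` to the empty word -/
theorem exists_translation (l : List (List (Fin q)))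
    (hl : (∀ c ∈ l, c.length = k + 1) ∧ l.IsChain (· ≠ ·)) :
    ∃ φ : Equiv.Perm (Cell q k), φ ⟨l, hl⟩ = ⟨[], by simp⟩ ∧ φ ⟨[], by simp⟩ = rev ⟨l, hl⟩ ∧
      ∀ c hc g, φ (R c hc g) = R c hc (φ g) := by
  induction l with
  | nil => exact ⟨Equiv.refl _, rfl, rfl, fun _ _ _ => rfl⟩
  | cons c l ih =>
    have hc : c.length = k + 1 := hl.1 c List.mem_cons_self
    have hl' : (∀ c ∈ l, c.length = k + 1) ∧ l.IsChain (· ≠ ·) :=
      ⟨fun c hc => hl.1 c (List.mem_cons_of_mem _ hc), hl.2.tail⟩
    obtain ⟨φ, h1, h2, h3⟩ := ih hl'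
    let ψ : Equiv.Perm (Cell q k) := ⟨L c hc, L c hc, L_L c hc, L_L c hc⟩
    have hψ : ∀ g, ψ g = L c hc g := fun _ => rfl
    refine ⟨φ.trans ψ, ?_, ?_, ?_⟩
    · have e : (⟨c :: l, hl⟩ : Cell q k) = R c hc ⟨l, hl'⟩ := by
        refine Subtype.ext ?_
        show c :: l = rmul c l
        cases l with
        | nil => rfl
        | cons x l =>
          have hne : c ≠ x := (List.isChain_cons_cons.1 hl.2).1
          simp [rmul, hne.symm]
      rw [Equiv.trans_apply, e, h3, h1, hψ]
      refine Subtype.ext ?_
      simp [R, L, rmul, lmul]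
    · rw [Equiv.trans_apply, h2, hψ]
      refine Subtype.ext ?_
      show lmul c l.reverse = (c :: l).reverse
      rw [List.reverse_cons]
      apply lmul_append
      rw [← List.reverse_cons, List.isChain_reverse]
      exact hl.2.imp fun a b h => h.symm
    · intro c' hc' g
      rw [Equiv.trans_apply, Equiv.trans_apply, h3, hψ, hψ, L_R]

theorem mult_perm (φ : Equiv.Perm (Cell q k)) (hφ : ∀ c hc g, φ (R c hc g) = R c hc (φ g))
    (x y : Cell q k × Ball q k) :
    mult ((φ.prodCongr (Equiv.refl _)) x) ((φ.prodCongr (Equiv.refl _)) y) = mult x y := by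
  have h : ∀ i, nb ((φ.prodCongr (Equiv.refl _)) x) i = (φ.prodCongr (Equiv.refl _)) (nb x i) := by
    intro i
    cases i with
    | none => rfl
    | some j =>
      by_cases h : x.2.1.length < k
      · rw [nb_some_lt x j h]
        exact nb_some_lt ((φ.prodCongr (Equiv.refl _)) x) j h
      · rw [nb_some_ge x j h]
        refine (nb_some_ge ((φ.prodCongr (Equiv.refl _)) x) j h).trans ?_
        refine Prod.ext ?_ rfl
        exact (hφ _ _ _).symm
  unfold mult
  simp only [h, EmbeddingLike.apply_eq_iff_eq]

theorem transport (f : ((Cell q k × Ball q k) → (Cell q k × Ball q k) → ℕ) →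
    (Cell q k × Ball q k) → (Cell q k × Ball q k) → ℝ≥0∞) (hf : IsInvariant f)
    (g : Cell q k) (w w' : Ball q k) :
    f mult (⟨[], by simp⟩, w) (g, w') = f mult (rev g, w) (⟨[], by simp⟩, w') := by
  obtain ⟨φ, h1, h2, h3⟩ := exists_translation g.1 g.2
  have h4 := hf (φ.prodCongr (Equiv.refl _)) mult (⟨[], by simp⟩, w) (g, w')
  simp only [mult_perm φ h3] at h4
  rw [h4]
  have e1 : (φ.prodCongr (Equiv.refl (Ball q k))) (⟨[], by simp⟩, w) = (rev g, w) :=
    Prod.ext h2 rfl
  have e2 : (φ.prodCongr (Equiv.refl (Ball q k))) (g, w') = (⟨[], by simp⟩, w') :=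
    Prod.ext h1 rfl
  rw [e1, e2]

instance : Finite (Ball q k) := by
  have := List.finite_length_le (Fin q) k
  exact this

/-- the mass transport principle in the discrete form -/
theorem mass_transport [Fintype (Ball q k)]
    (f : ((Cell q k × Ball q k) → (Cell q k × Ball q k) → ℕ) →
    (Cell q k × Ball q k) → (Cell q k × Ball q k) → ℝ≥0∞) (hf : IsInvariant f) :
    ∑ w : Ball q k, ∑' x, f mult (⟨[], by simp⟩, w) x =
      ∑ w : Ball q k, ∑' x, f mult x (⟨[], by simp⟩, w) := by
  have h1 : ∀ w : Ball q k, ∑' x, f mult (⟨[], by simp⟩, w) x =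
      ∑' g : Cell q k, ∑ w' : Ball q k, f mult (rev g, w) (⟨[], by simp⟩, w') := by
    intro w
    rw [ENNReal.tsum_prod (f := fun g w' => f mult (⟨[], by simp⟩, w) (g, w'))]
    refine tsum_congr fun g => ?_
    rw [tsum_fintype]
    exact Finset.sum_congr rfl fun w' _ => transport f hf g w w'
  have h2 : ∀ w : Ball q k, ∑' x, f mult x (⟨[], by simp⟩, w) =
      ∑' g : Cell q k, ∑ w' : Ball q k, f mult (g, w') (⟨[], by simp⟩, w) := by
    intro w
    rw [ENNReal.tsum_prod (f := fun g w' => f mult (g, w') (⟨[], by simp⟩, w))]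
    exact tsum_congr fun g => tsum_fintype _
  have h3 : ∀ w : Ball q k,
      ∑' g : Cell q k, ∑ w' : Ball q k, f mult (rev g, w) (⟨[], by simp⟩, w') =
      ∑' g : Cell q k, ∑ w' : Ball q k, f mult (g, w) (⟨[], by simp⟩, w') := by
    intro w
    let e : Cell q k ≃ Cell q k := ⟨rev, rev, rev_rev, rev_rev⟩
    exact e.tsum_eq fun g => ∑ w' : Ball q k, f mult (g, w) (⟨[], by simp⟩, w')
  simp only [h1, h2, h3]
  rw [← Summable.tsum_finsetSum fun _ _ => ENNReal.summable,
    ← Summable.tsum_finsetSum fun _ _ => ENNReal.summable]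
  refine tsum_congr fun g => ?_
  rw [Finset.sum_comm]

/-! ### The supersolution -/

/-- the profile in a ball that is entered through the leaf `v` -/
def H (q : ℕ) (t : ℝ) (v : List (Fin q)) : List (Fin q) → ℝ
  | [] => 1 + t
  | j :: w => if (j :: w) <:+ v then 1 + t * q ^ (w.length + 1) else H q t v w

theorem H_suffix (t : ℝ) (v w : List (Fin q)) (h : w <:+ v) : H q t v w = 1 + t * q ^ w.length := by
  cases w with
  | nil => simp [H]
  | cons j w => rw [H, if_pos h, List.length_cons]

theorem H_not (t : ℝ) (v w : List (Fin q)) (j : Fin q) (h : ¬ (j :: w) <:+ v) :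
    H q t v (j :: w) = H q t v w := by rw [H, if_neg h]

theorem H_pos {t : ℝ} (ht : 0 < t) (v w : List (Fin q)) : 0 < H q t v w := by
  induction w with
  | nil => rw [H]; linarith
  | cons j w ih =>
    rw [H]
    split_ifs
    · positivity
    · exact ih

theorem sum_H_suffix (t : ℝ) (v w : List (Fin q)) (h : w <:+ v) (hlen : w.length < v.length) :
    ∑ j, H q t v (j :: w) =
      (q - 1) * (1 + t * q ^ w.length) + (1 + t * q ^ (w.length + 1)) := by
  obtain ⟨s, hs⟩ := h
  have hs0 : s ≠ [] := by
    rintro rfl
    rw [List.nil_append] at hs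
    rw [hs] at hlen
    exact lt_irrefl _ hlen
  obtain ⟨s', j0, rfl⟩ : ∃ s' j0, s = s' ++ [j0] := ⟨s.dropLast, s.getLast hs0,
    (List.dropLast_append_getLast hs0).symm⟩
  have hj0 : (j0 :: w) <:+ v := ⟨s', by rw [← hs]; simp⟩
  have huniq : ∀ j, (j :: w) <:+ v → j = j0 := by
    intro j hj
    have h1 := List.suffix_of_suffix_length_le hj hj0 (by simp)
    have h2 := h1.eq_of_length (by simp)
    exact (List.cons.inj h2).1
  have hval : ∀ j, H q t v (j :: w) =
      (1 + t * q ^ w.length) + if j = j0 then t * q ^ (w.length + 1) - t * q ^ w.length else 0 := by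
    intro j
    by_cases hj : j = j0
    · subst hj
      rw [H_suffix _ _ _ hj0, if_pos rfl, List.length_cons]
      ring
    · rw [H_not _ _ _ _ fun h => hj (huniq j h), if_neg hj, add_zero,
        H_suffix _ _ _ ⟨s' ++ [j0], hs⟩]
  rw [Finset.sum_congr rfl fun j _ => hval j, Finset.sum_add_distrib, Finset.sum_ite_eq',
    if_pos (Finset.mem_univ _), Finset.sum_const, Finset.card_univ, Fintype.card_fin, nsmul_eq_mul]
  ring

/-- the supersolution -/
def F (q k : ℕ) (t : ℝ) : List (List (Fin q)) → List (Fin q) → ℝ
  | [], w => t⁻¹ ^ w.length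
  | c :: l, w =>
    F q k t l c.tail * (t ^ k / (t * (1 + t * q ^ k))) * t⁻¹ ^ w.length * H q t c.tail w

theorem F_pos {t : ℝ} (ht : 0 < t) (l : List (List (Fin q))) (w : List (Fin q)) :
    0 < F q k t l w := by
  induction l generalizing w with
  | nil => rw [F]; positivity
  | cons c l ih =>
    rw [F]
    have h1 := ih c.tail
    have h2 := H_pos ht c.tail w
    positivity

theorem F_enter {t : ℝ} (ht : 0 < t) (l : List (List (Fin q))) (w : List (Fin q)) (j : Fin q)
    (hw : w.length = k) : F q k t ((j :: w) :: l) w = F q k t l w / t := by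
  rw [F, List.tail_cons, H_suffix _ _ _ List.suffix_rfl, hw, inv_pow]
  have h1 : 0 < 1 + t * (q : ℝ) ^ k := by positivity
  field_simp

/-- the eigenvalue -/
def lam (q k : ℕ) (t : ℝ) : ℝ := 2 * t + (q - 1) / (t * (1 + t * q ^ k))

theorem supersolution {t : ℝ} (ht : 1 ≤ t) (hq : (q : ℝ) = t ^ 2) (x : Cell q k × Ball q k) :
    ∑ i, F q k t (nb x i).1.1 (nb x i).2.1 ≤ lam q k t * F q k t x.1.1 x.2.1 := by
  have ht0 : 0 < t := by linarith
  obtain ⟨⟨l, hl⟩, ⟨w, hw⟩⟩ := x
  have hf := F_pos (q := q) (k := k) ht0 l w
  have hlam : 2 * t ≤ lam q k t := by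
    have : 0 ≤ ((q : ℝ) - 1) / (t * (1 + t * q ^ k)) := by
      apply div_nonneg
      · rw [hq]; nlinarith
      · positivity
    unfold lam
    linarith
  rw [Fintype.sum_option]
  show F q k t l w.tail + ∑ j, F q k t (nb (⟨l, hl⟩, ⟨w, hw⟩) (some j)).1.1
    (nb (⟨l, hl⟩, ⟨w, hw⟩) (some j)).2.1 ≤ lam q k t * F q k t l w
  by_cases hk : w.length < k
  · -- inside a ball
    have hD : ∀ j, F q k t (nb (⟨l, hl⟩, ⟨w, hw⟩) (some j)).1.1
        (nb (⟨l, hl⟩, ⟨w, hw⟩) (some j)).2.1 = F q k t l (j :: w) := by
      intro j
      rw [nb_some_lt _ _ hk]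
    rw [Finset.sum_congr rfl fun j _ => hD j]
    cases l with
    | nil =>
      have h1 : ∑ j : Fin q, F q k t [] (j :: w) = t * F q k t [] w := by
        simp only [F, List.length_cons, inv_pow]
        rw [Finset.sum_const, Finset.card_univ, Fintype.card_fin, nsmul_eq_mul, hq]
        field_simp
        ring
      have h2 : F q k t [] w.tail ≤ t * F q k t [] w := by
        cases w with
        | nil => simpa [F] using ht
        | cons j w =>
          simp only [F, List.length_cons, List.tail_cons]
          rw [pow_succ]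
          apply le_of_eq
          field_simp
      rw [h1]
      nlinarith
    | cons c l =>
      have hc : c.length = k + 1 := hl.1 c List.mem_cons_self
      have hvk : c.tail.length = k := by rw [List.length_tail, hc]; rfl
      set v := c.tail with hv
      set K := F q k t l v * (t ^ k / (t * (1 + t * q ^ k))) with hK
      have hK0 : 0 < K := by
        have := F_pos (q := q) (k := k) ht0 l v
        positivity
      have hFw : ∀ u, F q k t (c :: l) u = K * t⁻¹ ^ u.length * H q t v u := fun u => rfl
      simp only [hFw, List.length_cons]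
      rw [← Finset.mul_sum]
      by_cases hs : w <:+ v
      · rw [sum_H_suffix t v w hs (by rw [hvk]; exact hk), H_suffix t v w hs]
        have h2 : t⁻¹ ^ w.tail.length * H q t v w.tail =
            t⁻¹ ^ w.length * (t + q ^ w.length) := by
          cases w with
          | nil => simp [H]; ring
          | cons j w =>
            have hs' : w <:+ v := (List.suffix_cons j w).trans hs
            rw [List.tail_cons, H_suffix t v w hs', List.length_cons, pow_succ, pow_succ, hq]
            field_simp
        have h3 : K * t⁻¹ ^ w.tail.length * H q t v w.tail =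
            K * (t⁻¹ ^ w.length * (t + q ^ w.length)) := by rw [← h2]; ring
        rw [h3]
        have h4 : K * (t⁻¹ ^ w.length * (t + (q : ℝ) ^ w.length)) + K * t⁻¹ ^ (w.length + 1) *
            ((q - 1) * (1 + t * q ^ w.length) + (1 + t * q ^ (w.length + 1))) =
            2 * t * (K * t⁻¹ ^ w.length * (1 + t * q ^ w.length)) := by
          rw [pow_succ, pow_succ, hq]
          field_simp
          ring
        rw [h4]
        apply mul_le_mul_of_nonneg_right hlam
        positivity
      · have hw0 : w ≠ [] := by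
          rintro rfl
          exact hs List.nil_suffix
        obtain ⟨j', w', rfl⟩ := List.exists_cons_of_ne_nil hw0
        have hH : ∀ j, H q t v (j :: j' :: w') = H q t v (j' :: w') := fun j =>
          H_not _ _ _ _ fun h => hs ((List.suffix_cons j _).trans h)
        rw [Finset.sum_congr rfl fun j _ => hH j, Finset.sum_const, Finset.card_univ,
          Fintype.card_fin, nsmul_eq_mul, List.tail_cons, H_not t v w' j' hs, List.length_cons]
        have hHp := H_pos ht0 v w'
        have h4 : K * t⁻¹ ^ w'.length * H q t v w' +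
            K * t⁻¹ ^ (w'.length + 1 + 1) * (q * H q t v w') =
            2 * t * (K * t⁻¹ ^ (w'.length + 1) * H q t v w') := by
          rw [pow_succ, pow_succ, hq]
          field_simp
          ring
        rw [h4]
        apply mul_le_mul_of_nonneg_right hlam
        positivity
  · -- a leaf of a ball
    have hwk : w.length = k := le_antisymm hw (not_lt.1 hk)
    have hD : ∀ j, F q k t (nb (⟨l, hl⟩, ⟨w, hw⟩) (some j)).1.1
        (nb (⟨l, hl⟩, ⟨w, hw⟩) (some j)).2.1 = F q k t (rmul (j :: w) l) w := by
      intro j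
      rw [nb_some_ge _ _ hk]
      rfl
    rw [Finset.sum_congr rfl fun j _ => hD j]
    cases l with
    | nil =>
      have h1 : ∑ j : Fin q, F q k t (rmul (j :: w) []) w = t * F q k t [] w := by
        have : ∀ j : Fin q, F q k t (rmul (j :: w) []) w = F q k t [] w / t := fun j =>
          F_enter ht0 [] w j hwk
        rw [Finset.sum_congr rfl fun j _ => this j, Finset.sum_const, Finset.card_univ,
          Fintype.card_fin, nsmul_eq_mul, hq]
        field_simp
      have h2 : F q k t [] w.tail ≤ t * F q k t [] w := by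
        cases w with
        | nil => simpa [F] using ht
        | cons j w =>
          simp only [F, List.length_cons, List.tail_cons]
          rw [pow_succ]
          apply le_of_eq
          field_simp
      rw [h1]
      nlinarith
    | cons c l =>
      have hc : c.length = k + 1 := hl.1 c List.mem_cons_self
      obtain ⟨j0, v, rfl⟩ := List.exists_cons_of_ne_nil (l := c) (by rintro rfl; simp at hc)
      have hvk : v.length = k := by simpa using hc
      set K := F q k t l v * (t ^ k / (t * (1 + t * q ^ k))) with hK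
      have hFv0 := F_pos (q := q) (k := k) ht0 l v
      have hK0 : 0 < K := by positivity
      have hFw : ∀ u, F q k t ((j0 :: v) :: l) u = K * t⁻¹ ^ u.length * H q t v u := fun u => rfl
      have hr : ∀ j, F q k t (rmul (j :: w) ((j0 :: v) :: l)) w =
          F q k t ((j0 :: v) :: l) w / t + if j0 :: v = j :: w then
            F q k t l w - F q k t ((j0 :: v) :: l) w / t else 0 := by
        intro j
        rw [rmul]
        split_ifs with h
        · ring
        · rw [F_enter ht0 _ w j hwk, add_zero]
      rw [Finset.sum_congr rfl fun j _ => hr j, Finset.sum_add_distrib, Finset.sum_const,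
        Finset.card_univ, Fintype.card_fin, nsmul_eq_mul, hq]
      by_cases hvw : v = w
      · subst hvw
        have h1 : ∑ j : Fin q, (if j0 :: v = j :: v then
            F q k t l v - F q k t ((j0 :: v) :: l) v / t else 0) =
            F q k t l v - F q k t ((j0 :: v) :: l) v / t := by
          simp
        rw [h1]
        have h2 : F q k t ((j0 :: v) :: l) v.tail =
            K * (t⁻¹ ^ k * (t + q ^ k)) := by
          rw [hFw, mul_assoc, ← hvk]
          congr 1
          cases v with
          | nil => simp [H]; ring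
          | cons j v =>
            rw [List.tail_cons, H_suffix t _ v (List.suffix_cons j v), List.length_cons, pow_succ,
              pow_succ, hq]
            field_simp
        have h3 : F q k t ((j0 :: v) :: l) v = F q k t l v / t := F_enter ht0 l v j0 hvk
        have h4 : K * (t⁻¹ ^ k * (t + (q : ℝ) ^ k)) =
            F q k t l v / t * ((t + q ^ k) / (1 + t * q ^ k)) := by
          rw [hK, inv_pow]
          have h5 : 0 < 1 + t * (q : ℝ) ^ k := by positivity
          field_simp
        rw [h2, h3, h4, lam, hq]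
        apply le_of_eq
        have h5 : 0 < 1 + t * (t ^ 2) ^ k := by positivity
        field_simp
        ring
      · have h1 : ∀ j : Fin q, (if j0 :: v = j :: w then
            F q k t l w - F q k t ((j0 :: v) :: l) w / t else 0) = 0 := by
          intro j
          rw [if_neg]
          intro h
          exact hvw (List.cons.inj h).2
        rw [Finset.sum_congr rfl fun j _ => h1 j, Finset.sum_const_zero, add_zero]
        have hs : ¬ w <:+ v := fun h => hvw (h.eq_of_length (by rw [hwk, hvk])).symm
        have hw0 : w ≠ [] := by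
          rintro rfl
          exact hs List.nil_suffix
        obtain ⟨j', w', rfl⟩ := List.exists_cons_of_ne_nil hw0
        have h2 : F q k t ((j0 :: v) :: l) (j' :: w').tail =
            t * F q k t ((j0 :: v) :: l) (j' :: w') := by
          rw [hFw, hFw, List.tail_cons, H_not t v w' j' hs, List.length_cons, pow_succ]
          field_simp
        rw [h2]
        have h3 : t ^ 2 * (F q k t ((j0 :: v) :: l) (j' :: w') / t) =
            t * F q k t ((j0 :: v) :: l) (j' :: w') := by field_simp
        rw [h3]
        nlinarith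

/-! ### Sizes -/

theorem card_ball (q k : ℕ) : Nat.card (Ball q k) ≤ ∑ i ∈ Finset.range (k + 1), q ^ i := by
  have h : ∀ k, ∃ T : Finset (List (Fin q)), (∀ w, w.length ≤ k → w ∈ T) ∧
      T.card ≤ ∑ i ∈ Finset.range (k + 1), q ^ i := by
    intro k
    induction k with
    | zero =>
      refine ⟨{[]}, ?_, by simp⟩
      intro w hw
      rw [Finset.mem_singleton]
      exact List.length_eq_zero_iff.1 (Nat.le_zero.1 hw)
    | succ k ih =>
      obtain ⟨T, hT, hcard⟩ := ih
      refine ⟨insert [] ((Finset.univ ×ˢ T).image fun p : Fin q × List (Fin q) => p.1 :: p.2),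
        ?_, ?_⟩
      · intro w hw
        cases w with
        | nil => exact Finset.mem_insert_self _ _
        | cons j w =>
          refine Finset.mem_insert_of_mem (Finset.mem_image.2 ⟨(j, w), ?_, rfl⟩)
          rw [Finset.mem_product]
          exact ⟨Finset.mem_univ _, hT w (by simpa using hw)⟩
      · refine (Finset.card_insert_le _ _).trans ?_
        have h1 := Finset.card_image_le (s := Finset.univ ×ˢ T)
          (f := fun p : Fin q × List (Fin q) => p.1 :: p.2)
        rw [Finset.card_product, Finset.card_univ, Fintype.card_fin] at h1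
        rw [Finset.sum_range_succ']
        simp only [pow_succ, pow_zero]
        rw [← Finset.sum_mul]
        have h2 : q * T.card ≤ (∑ i ∈ Finset.range (k + 1), q ^ i) * q := by
          rw [mul_comm]
          exact Nat.mul_le_mul_right q hcard
        omega
  obtain ⟨T, hT, hcard⟩ := h k
  refine le_trans ?_ hcard
  let e : Ball q k → T := fun w => ⟨w.1, hT w.1 w.2⟩
  have he : Function.Injective e := by
    intro a b hab
    exact Subtype.ext (congrArg (fun x : T => x.1) hab)
  have := Nat.card_le_card_of_injective e he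
  rwa [Nat.card_eq_fintype_card (α := T), Fintype.card_coe] at this

/-- an alternating word -/
def alt {X : Type} (c c' : X) : ℕ → List X
  | 0 => []
  | n + 1 => (if n % 2 = 0 then c else c') :: alt c c' n

theorem infinite_cell (hq : 2 ≤ q) : Infinite (Cell q k) := by
  let c : List (Fin q) := List.replicate (k + 1) ⟨0, by omega⟩
  let c' : List (Fin q) := List.replicate (k + 1) ⟨1, by omega⟩
  have hne : c ≠ c' := by
    intro h
    have h1 := congrArg List.head? h
    simp [c, c', List.replicate_succ] at h1
  have hchain : ∀ n, (alt c c' n).IsChain (· ≠ ·) := by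
    intro n
    induction n with
    | zero => simp [alt]
    | succ n ih =>
      cases n with
      | zero => simp [alt]
      | succ n =>
        rw [alt, alt] at *
        refine List.isChain_cons_cons.2 ⟨?_, ih⟩
        rcases Nat.mod_two_eq_zero_or_one n with h | h
        · have h1 : ¬ (n + 1) % 2 = 0 := by omega
          rw [if_pos h, if_neg h1]; exact hne.symm
        · have h1 : (n + 1) % 2 = 0 := by omega
          have h2 : ¬ n % 2 = 0 := by omega
          rw [if_neg h2, if_pos h1]; exact hne
  have hmem : ∀ n, ∀ x ∈ alt c c' n, x.length = k + 1 := by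
    intro n
    induction n with
    | zero => simp [alt]
    | succ n ih =>
      intro x hx
      rw [alt, List.mem_cons] at hx
      rcases hx with rfl | hx
      · split_ifs <;> simp [c, c']
      · exact ih x hx
  have hlen : ∀ n, (alt c c' n).length = n := by
    intro n
    induction n with
    | zero => rfl
    | succ n ih => rw [alt, List.length_cons, ih]
  refine Infinite.of_injective (fun n => (⟨alt c c' n, hmem n, hchain n⟩ : Cell q k)) ?_
  intro a b hab
  have h1 := congrArg (fun l : Cell q k => l.1.length) hab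
  simpa [hlen] using h1

end Construction

theorem exists_level (q : ℕ) (hq : 2 ≤ q) (r : ℝ) (hr : 0 < r) (hr1 : r ≤ 1) :
    ∃ k, r * (∑ i ∈ Finset.range (k + 1), q ^ i : ℕ) ≤ 1 ∧
      lam q k (Real.sqrt q) ≤ 2 * Real.sqrt q + (q + 1) * r := by
  set s : ℕ → ℕ := fun k => ∑ i ∈ Finset.range (k + 1), q ^ i with hs
  have hs1 : ∀ k, s (k + 1) = q * s k + 1 := by
    intro k
    simp only [hs]
    rw [Finset.sum_range_succ']
    simp only [pow_succ, pow_zero]
    rw [← Finset.sum_mul, mul_comm]
  have hs0 : s 0 = 1 := by simp [hs]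
  have hpos : ∀ k, k + 1 ≤ s k := by
    intro k
    induction k with
    | zero => rw [hs0]
    | succ k ih => rw [hs1]; nlinarith
  have hgeom : ∀ k, ((q : ℝ) - 1) * s k = q ^ (k + 1) - 1 := by
    intro k
    induction k with
    | zero => rw [hs0]; push_cast; ring
    | succ k ih =>
      rw [hs1]; push_cast
      calc ((q : ℝ) - 1) * (q * s k + 1) = q * (((q : ℝ) - 1) * s k) + (q - 1) := by ring
        _ = _ := by rw [ih]; ring
  have hex : ∃ k, 1 < r * s k := by
    obtain ⟨n, hn⟩ := exists_nat_gt (1 / r)
    refine ⟨n, ?_⟩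
    rw [div_lt_iff₀ hr] at hn
    have h1 : (n : ℝ) ≤ s n := by exact_mod_cast (Nat.le_succ n).trans (hpos n)
    nlinarith
  have hk0 := Nat.find_spec hex
  have hk1 : Nat.find hex ≠ 0 := by
    intro h
    rw [h, hs0] at hk0
    push_cast at hk0
    linarith
  obtain ⟨k, hk⟩ := Nat.exists_eq_succ_of_ne_zero hk1
  have hkl : ¬ 1 < r * s k := Nat.find_min hex (by omega)
  refine ⟨k, not_lt.1 hkl, ?_⟩
  rw [hk, Nat.succ_eq_add_one, hs1] at hk0
  have hqr : (2 : ℝ) ≤ q := by exact_mod_cast hq
  set t := Real.sqrt q with ht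
  have htq : t * t = q := Real.mul_self_sqrt (by linarith)
  have ht1 : 1 ≤ t := by rw [ht, Real.one_le_sqrt]; linarith
  have hsk : (1 : ℝ) ≤ s k := by exact_mod_cast (Nat.le_add_left 1 k).trans (hpos k)
  have h1 : (1 : ℝ) / s k ≤ (q + 1) * r := by
    rw [div_le_iff₀ (by linarith)]
    push_cast at hk0
    nlinarith
  have hqk : (1 : ℝ) < q ^ (k + 1) := one_lt_pow₀ (by linarith) (by omega)
  have h2 : ((q : ℝ) - 1) / (t * (1 + t * q ^ k)) ≤ 1 / s k := by
    rw [div_le_div_iff₀ (by positivity) (by linarith), hgeom, one_mul]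
    have : t * (1 + t * (q : ℝ) ^ k) = t + q ^ (k + 1) := by
      rw [pow_succ, mul_add, ← mul_assoc, htq]; ring
    rw [this]
    linarith
  unfold lam
  linarith

/-- **Theorem.** For every `d ≥ 3` and every `r ∈ (0, 1]` there is an infinite `d`-regular
unimodular random graph with loop density at least `r` and spectral radius at most
`2 √(d - 1) / d + r`. -/
theorem result (d : ℕ) (hd : 3 ≤ d) (r : ℝ) (hr : 0 < r) (hr1 : r ≤ 1) :
    ∃ (V Ω : Type) (_ : Countable V) (_ : Infinite V) (_ : MeasurableSpace Ω) (P : Measure Ω)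
      (_ : IsProbabilityMeasure P) (a : Ω → V → V → ℕ) (o : Ω → V),
      (∀ x y, Measurable fun ω => a ω x y) ∧ (∀ x, MeasurableSet {ω | o ω = x}) ∧
      (∀ ω, IsRegularGraph d (a ω)) ∧ IsUnimodular P a o ∧
      essSup (fun ω => spectralRadius d (a ω) (o ω)) P ≤
        ENNReal.ofReal (2 * Real.sqrt (d - 1) / d + r) ∧
      ENNReal.ofReal r ≤ P {ω | 1 ≤ a ω (o ω) (o ω)} := by
  obtain ⟨q, rfl⟩ : ∃ q, d = q + 1 := ⟨d - 1, by omega⟩
  have hq : 2 ≤ q := by omega
  have hqr : (2 : ℝ) ≤ q := by exact_mod_cast hq
  obtain ⟨k, hk1, hk2⟩ := exists_level q hq r hr hr1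
  have hfin : Fintype (Ball q k) := Fintype.ofFinite _
  have hne : Nonempty (Ball q k) := ⟨⟨[], Nat.zero_le _⟩⟩
  have hinf : Infinite (Cell q k) := infinite_cell hq
  let mB : MeasurableSpace (Ball q k) := ⊤
  have hmB : DiscreteMeasurableSpace (Ball q k) := ⟨fun _ => trivial⟩
  let P : Measure (Ball q k) := (PMF.uniformOfFintype (Ball q k)).toMeasure
  have hPs : ∀ w, P {w} = (Fintype.card (Ball q k) : ℝ≥0∞)⁻¹ := by
    intro w
    rw [PMF.toMeasure_apply_singleton _ _ (MeasurableSet.singleton _),
      PMF.uniformOfFintype_apply]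
  refine ⟨Cell q k × Ball q k, Ball q k, inferInstance, inferInstance, mB, P,
    PMF.toMeasure.isProbabilityMeasure _, fun _ => mult, fun w => (⟨[], by simp⟩, w),
    fun _ _ => measurable_const, fun _ => trivial, fun _ => ?_, ?_, ?_, ?_⟩
  · exact ⟨mult_symm, fun x => regular x, connected⟩
  · intro f _ hf
    rw [lintegral_fintype, lintegral_fintype]
    simp only [hPs]
    rw [← Finset.sum_mul, ← Finset.sum_mul, mass_transport f hf]
  · set t := Real.sqrt q with ht
    have htq : t * t = q := Real.mul_self_sqrt (by linarith)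
    have ht1 : 1 ≤ t := by rw [ht, Real.one_le_sqrt]; linarith
    have ht0 : 0 < t := by linarith
    refine essSup_le_of_ae_le _ (Eventually.of_forall fun w => ?_)
    have h := spectralRadius_le (q + 1) (mult (q := q) (k := k)) (ENNReal.ofReal (lam q k t))
      (fun x => ENNReal.ofReal (F q k t x.1.1 x.2.1)) (by
        intro x
        rw [tsum_mult, ← ENNReal.ofReal_sum_of_nonneg fun i _ => (F_pos ht0 _ _).le,
          ← ENNReal.ofReal_mul' (F_pos ht0 _ _).le]
        exact ENNReal.ofReal_le_ofReal (supersolution ht1 (by rw [← htq]; ring) x))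
      (fun x => by
        rw [Ne, ENNReal.ofReal_eq_zero, not_le]
        exact F_pos ht0 _ _)
      (fun x => ENNReal.ofReal_ne_top) (⟨[], by simp⟩, w)
    refine h.trans ?_
    have e : ((q + 1 : ℕ) : ℝ≥0∞) = ENNReal.ofReal ((q + 1 : ℕ) : ℝ) :=
      (ENNReal.ofReal_natCast _).symm
    rw [e, ← ENNReal.ofReal_div_of_pos (by positivity)]
    refine ENNReal.ofReal_le_ofReal ?_
    push_cast
    rw [add_sub_cancel_right, div_add' _ _ _ (by positivity)]
    refine div_le_div_of_nonneg_right ?_ (by positivity)
    linarith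
  · have h1 : P {(⟨[], Nat.zero_le _⟩ : Ball q k)} ≤
        P {w : Ball q k | 1 ≤ mult ((⟨[], by simp⟩ : Cell q k), w) (⟨[], by simp⟩, w)} := by
      refine measure_mono ?_
      rintro w rfl
      exact adj_nb ((⟨[], by simp⟩ : Cell q k), (⟨[], Nat.zero_le _⟩ : Ball q k)) none
    refine le_trans ?_ h1
    rw [hPs]
    have hcard : (Fintype.card (Ball q k) : ℝ) * r ≤ 1 := by
      have h2 := card_ball q k
      rw [Nat.card_eq_fintype_card] at h2
      have h3 : (Fintype.card (Ball q k) : ℝ) ≤ (∑ i ∈ Finset.range (k + 1), q ^ i : ℕ) := by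
        exact_mod_cast h2
      nlinarith
    rw [ENNReal.le_inv_iff_mul_le, ← ENNReal.ofReal_natCast, ← ENNReal.ofReal_mul hr.le]
    rw [← ENNReal.ofReal_one]
    exact ENNReal.ofReal_le_ofReal (by linarith)

end

end Pool.Agent.Results.MP_74bc7f_pr.LinearLoopDensity
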